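import Pool.Agent.Q57.BN.Locus

/-!
# MP_54820f_ag: Brill-Noether loci of `g^r_d`'s versus loci of nets: the non-containment fails

A smooth irreducible projective curve `C` over `ℂ` is described by its function field `K`
(`IsCurve K`: finitely generated over `ℂ`, of transcendence degree one); its closed points are the
normalised discrete valuations of `K/ℂ` (`Point K`), a line bundle is given by its local generators
(`LineBundle K`), `H0 L` is the space of global sections of `L`, `L.degree` its degree, and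
`genus K = dim H¹(C, 𝒪_C)` is the genus (seed library `Pool/Agent/Helper395`).
`InLocus g r d K` says that `[C] ∈ M^r_{g,d}` (`Pool/Agent/Q57/BN/Locus.lean`).
-/

namespace Pool.Agent.Results.MP_54820f_ag.HyperellipticContainment

open Q57.BN

/-- The statement of Q1. The loci are `M^r_{g,d}` and `M^2_{g,e}`; the division is the floor. -/
def Statement : Prop :=
  ∃ g₀ : ℕ, ∀ g : ℕ, g₀ ≤ g → ∀ r d e : ℤ, 3 ≤ r → d ≤ g - 1 → e ≤ g - 1 →
    rho g r d < 0 → rho g 2 e < 0 → e < d - 2 * r + 2 + (r + 3) / 2 →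
    ¬ ∀ (K : Type) [Field K] [Algebra ℂ K], InLocus g r d K → InLocus g 2 e K

theorem rho_neg {g : ℕ} {r : ℤ} (hr : 1 ≤ r) (h : 2 * r ≤ g - 1) : rho g r (2 * r) < 0 := by
  unfold rho
  have h1 : (g : ℤ) - (r + 1) * (g - 2 * r + r) = -(r * (g - r - 1)) := by ring
  rw [h1]
  have h2 : 0 < r * ((g : ℤ) - r - 1) := mul_pos (by omega) (by omega)
  omega

/-- Q1 is false. For every genus `g ≥ 7` and every `r ≥ 3` with `2r ≤ g - 1` the locus `M^r_{g,2r}` is
nonempty and it is equal to `M^2_{g,4}`, and `(r, d, e) = (r, 2r, 4)` satisfies all the conditions of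
Q1. -/
theorem result : ¬ Statement ∧
    ∀ (g : ℕ) (r : ℤ), 3 ≤ r → 2 * r ≤ g - 1 →
      rho g r (2 * r) < 0 ∧ rho g 2 4 < 0 ∧ (4 : ℤ) ≤ g - 1 ∧
      (4 : ℤ) < 2 * r - 2 * r + 2 + (r + 3) / 2 ∧
      (∃ (K : Type) (_ : Field K) (_ : Algebra ℂ K), InLocus g r (2 * r) K) ∧
      ∀ (K : Type) [Field K] [Algebra ℂ K], InLocus g r (2 * r) K ↔ InLocus g 2 4 K := by
  have key : ∀ (g : ℕ) (r : ℤ), 3 ≤ r → 2 * r ≤ g - 1 →
      rho g r (2 * r) < 0 ∧ rho g 2 4 < 0 ∧ (4 : ℤ) ≤ g - 1 ∧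
      (4 : ℤ) < 2 * r - 2 * r + 2 + (r + 3) / 2 ∧
      (∃ (K : Type) (_ : Field K) (_ : Algebra ℂ K), InLocus g r (2 * r) K) ∧
      ∀ (K : Type) [Field K] [Algebra ℂ K], InLocus g r (2 * r) K ↔ InLocus g 2 4 K := by
    intro g r hr hg
    refine ⟨rho_neg (by omega) hg, rho_neg (r := 2) (by omega) (by omega), by omega, by omega, ?_, ?_⟩
    · obtain ⟨K, _, _, h⟩ := exists_inLocus (g := g) (by omega)
      exact ⟨K, inferInstance, inferInstance, h r (by omega)⟩
    · intro K _ _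
      exact ⟨fun h => hasSeries_of_hasSeries (s := 2) (by omega) hg (by omega) h,
        fun h => hasSeries_of_hasSeries (r := 2) (by omega) (by omega) (by omega) h⟩
  refine ⟨?_, key⟩
  rintro ⟨g₀, h⟩
  obtain ⟨h1, h2, h3, h4, -, h5⟩ := key (g₀ + 7) 3 le_rfl (by push_cast; omega)
  exact h (g₀ + 7) (by omega) 3 (2 * 3) 4 le_rfl (by push_cast; omega) h3 h1 h2 h4
    fun K _ _ hK => (h5 K).1 hK

end Pool.Agent.Results.MP_54820f_ag.HyperellipticContainment
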