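import Pool.Agent.Q49.BNLoc

/-!
# Brill-Noether loci of `g^r_d`'s are contained in loci of nets below the secant range

For all `r ≥ 3`, `d ≥ 2 r` and `g > d (d - 1)` the nonempty Brill-Noether locus `M^r_{g,d}` is
contained in `M²_{g,e}` with `e = d - 2 r + 4`, although
`e < d - 2 r + 2 + ⌊(r + 3) / 2⌋`. Here curves of genus `g` are given by their function fields `K`
(`IsCurve`, `genus` the dimension of `H¹(C, 𝒪_C)`).
-/

namespace Pool.Agent.Results.MP_54820f_ag.NetsFail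

open Q49.BNLoc

/-- The answer to Q1 is negative: (1) there is no `g₀` as in Q1, even if Q1 is restricted to nonempty
loci `M^r_{g,d}`; (2) for all `r ≥ 3`, `d ≥ 2 r` and `g > d (d - 1)` the triple `r, d, e = d - 2 r + 4`
is a counterexample. -/
theorem result :
    (¬ ∃ g₀ : ℕ, ∀ g : ℕ, g₀ ≤ g → ∀ r d e : ℤ, 3 ≤ r → d ≤ g - 1 → e ≤ g - 1 →
      rho g r d < 0 → rho g 2 e < 0 → LocusNonempty g r d → LocusNonempty g 2 e →
      e < d - 2 * r + 2 + (r + 3) / 2 → ¬ Contained g r d 2 e) ∧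
    (∀ r d g : ℕ, 3 ≤ r → 2 * r ≤ d → d * (d - 1) < g →
      (d : ℤ) ≤ g - 1 ∧ (d : ℤ) - 2 * r + 4 ≤ g - 1 ∧ rho g r d < 0 ∧
      rho g 2 ((d : ℤ) - 2 * r + 4) < 0 ∧
      LocusNonempty g r d ∧ LocusNonempty g 2 ((d : ℤ) - 2 * r + 4) ∧
      (d : ℤ) - 2 * r + 4 < d - 2 * r + 2 + ((r : ℤ) + 3) / 2 ∧
      Contained g r d 2 ((d : ℤ) - 2 * r + 4)) := by
  have main : ∀ r d g : ℕ, 3 ≤ r → 2 * r ≤ d → d * (d - 1) < g →
      (d : ℤ) ≤ g - 1 ∧ (d : ℤ) - 2 * r + 4 ≤ g - 1 ∧ rho g r d < 0 ∧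
      rho g 2 ((d : ℤ) - 2 * r + 4) < 0 ∧
      LocusNonempty g r d ∧ LocusNonempty g 2 ((d : ℤ) - 2 * r + 4) ∧
      (d : ℤ) - 2 * r + 4 < d - 2 * r + 2 + ((r : ℤ) + 3) / 2 ∧
      Contained g r d 2 ((d : ℤ) - 2 * r + 4) := by
    intro r d g hr hd hg
    have h5 : 5 * d ≤ d * (d - 1) := by
      rw [mul_comm]
      exact Nat.mul_le_mul_left d (by omega)
    have hc := contained (g := g) (r := r) (s := 2) (d := d) (by omega) hg
    have he : (d : ℤ) - 2 * ((r : ℤ) - (2 : ℕ)) = d - 2 * r + 4 := by push_cast; ring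
    rw [he] at hc
    have hne := nonempty_locus (g := g) (r := 2) (d := d - 2 * r + 4) (by omega) (by omega)
    have he2 : ((d - 2 * r + 4 : ℕ) : ℤ) = (d : ℤ) - 2 * r + 4 := by omega
    rw [he2] at hne
    exact ⟨by omega, by omega, rho_neg (by omega) (by omega) (by omega),
      rho_neg (by omega) (by omega) (by omega), nonempty_locus (by omega) hd, hne, by omega, hc⟩
  refine ⟨?_, main⟩
  rintro ⟨g₀, h⟩
  obtain ⟨h1, h2, h3, h4, h5, h6, h7, h8⟩ := main 3 6 (g₀ + 31) (by omega) (by omega) (by omega)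
  refine h (g₀ + 31) (by omega) (3 : ℕ) (6 : ℕ) _ (by norm_num) h1 h2 h3 h4 h5 h6 h7 h8

end Pool.Agent.Results.MP_54820f_ag.NetsFail
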